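import Pool.Agent.N720.SL.Stm
import Pool.Agent.H789R2.FR.Caps

set_option autoImplicit false

/-!
# Project CY, task DOM: domination by Lebesgue measure on a shell
-/

namespace Pool.Agent.N603.CY.Dom

open MeasureTheory Set Metric
open scoped ENNReal NNReal
open Pool.Agent.H789R2.FR (sg sg_ae sg_finite cap_upper)
open Pool.Agent.N720.SL (E bm cv)

/-- the measure of balls -/
lemma ball_le {n : ℕ} (hn : 2 ≤ n) : ∃ C : ℝ, 0 < C ∧ ∀ r : ℝ, 0 < r → ∀ z : E n,
    sg n (closedBall z r) ≤ ENNReal.ofReal (C * r ^ (n - 1)) := by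
  obtain ⟨C, hC, h⟩ := cap_upper n hn
  have hfin := sg_finite n
  refine ⟨C * 3 ^ (n - 1), by positivity, fun r hr z => ?_⟩
  by_cases hy : ∃ y ∈ closedBall z r, ‖y‖ = 1
  · obtain ⟨y, hy1, hy2⟩ := hy
    have h1 : closedBall z r ⊆ {w | ‖y - w‖ < 3 * r} := by
      intro w hw
      have h2 : dist y w ≤ dist y z + dist w z := dist_triangle_right y w z
      have h3 : dist y z ≤ r := hy1
      have h4 : dist w z ≤ r := hw
      show ‖y - w‖ < 3 * r
      rw [← dist_eq_norm]
      linarith
    have h5 := h (3 * r) (by linarith) y hy2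
    calc sg n (closedBall z r) ≤ sg n {w | ‖y - w‖ < 3 * r} := measure_mono h1
      _ = ENNReal.ofReal ((sg n).real {w | ‖y - w‖ < 3 * r}) := by
        rw [measureReal_def, ENNReal.ofReal_toReal (measure_ne_top _ _)]
      _ ≤ ENNReal.ofReal (C * 3 ^ (n - 1) * r ^ (n - 1)) := by
        apply ENNReal.ofReal_le_ofReal
        rw [mul_pow, ← mul_assoc] at h5
        exact h5
  · have h1 : sg n (closedBall z r) = 0 := by
      rw [measure_eq_zero_iff_ae_notMem]
      filter_upwards [sg_ae n] with w hw h2
      exact hy ⟨w, h2, hw⟩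
    rw [h1]
    exact zero_le

/-- total mass of the averaging measure -/
lemma bm_univ {n : ℕ} {r : ℝ} : bm n r univ ≤ 1 := by
  unfold bm
  rw [Measure.smul_apply, Measure.restrict_apply_univ, smul_eq_mul]
  exact ENNReal.inv_mul_le_one _

lemma bm_ae {n : ℕ} {r : ℝ} : ∀ᵐ y ∂(bm n r), ‖y‖ ≤ r := by
  unfold bm
  refine Measure.ae_smul_measure ?_ _
  filter_upwards [ae_restrict_mem measurableSet_closedBall] with y hy
  rwa [mem_closedBall_zero_iff] at hy

instance bm_sf {n : ℕ} {r : ℝ} : SFinite (bm n r) := by
  unfold bm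
  infer_instance

lemma cv_sf {n : ℕ} {τ κ : Measure (E n)} [SFinite τ] [SFinite κ] (i : ℕ) : SFinite (cv τ κ i) := by
  induction i with
  | zero => exact ‹SFinite τ›
  | succ i ih =>
    show SFinite ((cv τ κ i).conv κ)
    infer_instance

/-- the convolution of a ball -/
lemma conv_ball {n : ℕ} (μ κ : Measure (E n)) [SFinite μ] [SFinite κ] (z : E n) (r : ℝ) :
    (μ.conv κ) (closedBall z r) = ∫⁻ y, μ (closedBall (z - y) r) ∂κ := by
  rw [Measure.conv_comm, ← lintegral_indicator_one measurableSet_closedBall,
    Measure.lintegral_conv (measurable_one.indicator measurableSet_closedBall)]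
  refine lintegral_congr fun y => ?_
  rw [← lintegral_indicator_one measurableSet_closedBall]
  refine lintegral_congr fun x => ?_
  have e : (y + x ∈ closedBall z r) ↔ x ∈ closedBall (z - y) r := by
    rw [mem_closedBall, mem_closedBall, dist_eq_norm, dist_eq_norm,
      show y + x - z = x - (z - y) by abel]
  by_cases hx : x ∈ closedBall (z - y) r
  · rw [indicator_of_mem hx, indicator_of_mem (e.mpr hx)]
    rfl
  · rw [indicator_of_notMem hx, indicator_of_notMem (fun h => hx (e.mp h))]

/-- the measure of balls after `j` steps -/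
lemma claim {n : ℕ} {C r : ℝ}
    (hC : ∀ z : E n, sg n (closedBall z r) ≤ ENNReal.ofReal (C * r ^ (n - 1)))
    {W : E n → ℝ≥0∞} (u : E n) (V : ℝ≥0∞) (hV : ∀ x : E n, ‖x‖ = 1 → ‖x - u‖ ≤ n * r → W x ≤ V)
    (j : ℕ) : ∀ z : E n, (j + 1 ≤ n → ‖z - u‖ ≤ ((n : ℝ) - 1 - j) * r →
      cv ((sg n).withDensity W) (bm n r) j (closedBall z r) ≤
        V * ENNReal.ofReal (C * r ^ (n - 1))) ∧
      (((j : ℝ) + 1) * r < |‖z‖ - 1| →
        cv ((sg n).withDensity W) (bm n r) j (closedBall z r) = 0) := by
  have hfin := sg_finite n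
  induction j with
  | zero =>
    intro z
    refine ⟨fun _ hz => ?_, fun hz => ?_⟩
    · show (sg n).withDensity W (closedBall z r) ≤ _
      rw [withDensity_apply _ measurableSet_closedBall]
      calc ∫⁻ x in closedBall z r, W x ∂(sg n) ≤ ∫⁻ _ in closedBall z r, V ∂(sg n) := by
            refine lintegral_mono_ae ?_
            filter_upwards [ae_restrict_mem measurableSet_closedBall,
              ae_restrict_of_ae (sg_ae n)] with x hx hx1
            refine hV x hx1 ?_
            have h1 : ‖x - u‖ ≤ ‖x - z‖ + ‖z - u‖ := norm_sub_le_norm_sub_add_norm_sub _ _ _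
            have h2 : ‖x - z‖ ≤ r := by
              rw [← dist_eq_norm]
              exact hx
            simp only [Nat.cast_zero, sub_zero] at hz
            nlinarith
        _ = V * sg n (closedBall z r) := by rw [setLIntegral_const]
        _ ≤ V * ENNReal.ofReal (C * r ^ (n - 1)) := by gcongr; exact hC z
    · show (sg n).withDensity W (closedBall z r) = 0
      have h1 : sg n (closedBall z r) = 0 := by
        rw [measure_eq_zero_iff_ae_notMem]
        filter_upwards [sg_ae n] with w hw h2
        have h3 : ‖w - z‖ ≤ r := by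
          rw [← dist_eq_norm]
          exact h2
        have h4 : |‖z‖ - ‖w‖| ≤ ‖z - w‖ := abs_norm_sub_norm_le _ _
        rw [norm_sub_rev] at h4
        rw [hw] at h4
        simp only [Nat.cast_zero, zero_add, one_mul] at hz
        linarith
      exact withDensity_absolutelyContinuous _ _ h1
  | succ j ih =>
    intro z
    have hsf : SFinite (cv ((sg n).withDensity W) (bm n r) j) := cv_sf j
    have e : cv ((sg n).withDensity W) (bm n r) (j + 1) (closedBall z r) =
        ∫⁻ y, cv ((sg n).withDensity W) (bm n r) j (closedBall (z - y) r) ∂(bm n r) :=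
      conv_ball _ _ z r
    rw [e]
    refine ⟨fun hj hz => ?_, fun hz => ?_⟩
    · calc ∫⁻ y, cv ((sg n).withDensity W) (bm n r) j (closedBall (z - y) r) ∂(bm n r)
          ≤ ∫⁻ _, V * ENNReal.ofReal (C * r ^ (n - 1)) ∂(bm n r) := by
            refine lintegral_mono_ae ?_
            filter_upwards [bm_ae] with y hy
            refine (ih (z - y)).1 (by omega) ?_
            have h1 : ‖z - y - u‖ ≤ ‖z - u‖ + ‖y‖ := by
              rw [show z - y - u = (z - u) - y by abel]
              exact norm_sub_le _ _
            push_cast at hz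
            nlinarith
        _ = V * ENNReal.ofReal (C * r ^ (n - 1)) * bm n r univ := lintegral_const _
        _ ≤ V * ENNReal.ofReal (C * r ^ (n - 1)) * 1 := by gcongr; exact bm_univ
        _ = _ := mul_one _
    · have hz0 : ∀ᵐ y ∂(bm n r),
          cv ((sg n).withDensity W) (bm n r) j (closedBall (z - y) r) = 0 := by
        filter_upwards [bm_ae] with y hy
        refine (ih (z - y)).2 ?_
        have h1 : |‖z‖ - ‖z - y‖| ≤ ‖z - (z - y)‖ := abs_norm_sub_norm_le _ _
        rw [sub_sub_cancel] at h1
        have h2 : |‖z‖ - 1| ≤ |‖z - y‖ - 1| + |‖z‖ - ‖z - y‖| := by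
          have h3 := abs_sub_le ‖z‖ ‖z - y‖ 1
          linarith
        push_cast at hz
        nlinarith
      exact (lintegral_congr_ae hz0).trans lintegral_zero

/-- an average over a ball -/
lemma avg {n : ℕ} {r : ℝ} (z : E n) (H : E n → ℝ≥0∞) :
    ∫⁻ y, H (z + y) ∂(bm n r) =
      (volume (closedBall (0 : E n) r))⁻¹ * ∫⁻ u, (closedBall z r).indicator H u := by
  unfold bm
  rw [lintegral_smul_measure, smul_eq_mul, ← lintegral_indicator measurableSet_closedBall]
  congr 1
  rw [← lintegral_add_left_eq_self ((closedBall z r).indicator H) z]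
  refine lintegral_congr fun y => ?_
  have e : (z + y ∈ closedBall z r) ↔ y ∈ closedBall (0 : E n) r := by
    rw [mem_closedBall, mem_closedBall, dist_eq_norm, dist_eq_norm, add_sub_cancel_left, sub_zero]
  by_cases hy : y ∈ closedBall (0 : E n) r
  · rw [indicator_of_mem hy, indicator_of_mem (e.mpr hy)]
  · rw [indicator_of_notMem hy, indicator_of_notMem (fun h => hy (e.mp h))]

/-- the integral with respect to a convolution with the averaging measure -/
lemma conv_avg {n : ℕ} {r : ℝ} (μ : Measure (E n)) [SFinite μ] (H : E n → ℝ≥0∞)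
    (hH : Measurable H) : ∫⁻ x, H x ∂(μ.conv (bm n r)) =
      (volume (closedBall (0 : E n) r))⁻¹ * ∫⁻ u, H u * μ (closedBall u r) := by
  have hms : MeasurableSet {p : E n × E n | p.2 ∈ closedBall p.1 r} := by
    have : {p : E n × E n | p.2 ∈ closedBall p.1 r} = {p | dist p.2 p.1 ≤ r} := rfl
    rw [this]
    exact measurableSet_le (measurable_snd.dist measurable_fst) measurable_const
  have hm : Measurable (Function.uncurry fun (z u : E n) => (closedBall z r).indicator H u) := by
    have e : (Function.uncurry fun (z u : E n) => (closedBall z r).indicator H u) =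
        {p : E n × E n | p.2 ∈ closedBall p.1 r}.indicator (fun p => H p.2) := by
      funext p
      rfl
    rw [e]
    exact (hH.comp measurable_snd).indicator hms
  rw [Measure.lintegral_conv hH]
  simp_rw [avg]
  rw [lintegral_const_mul _ (hm.lintegral_prod_right), lintegral_lintegral_swap hm.aemeasurable]
  congr 1
  refine lintegral_congr fun u => ?_
  have e : ∀ z : E n, (closedBall z r).indicator H u = H u * (closedBall u r).indicator 1 z := by
    intro z
    by_cases hz : z ∈ closedBall u r
    · rw [indicator_of_mem hz, indicator_of_mem (mem_closedBall_comm.mp hz), Pi.one_apply, mul_one]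
    · rw [indicator_of_notMem hz, indicator_of_notMem (fun h => hz (mem_closedBall_comm.mp h)),
        mul_zero]
  simp_rw [e]
  rw [lintegral_const_mul _ (measurable_one.indicator measurableSet_closedBall),
    lintegral_indicator_one measurableSet_closedBall]

theorem main : Pool.Agent.N720.SL.S_DOM := by
  intro n hn
  obtain ⟨C, hC, hball⟩ := ball_le hn
  set ω : ℝ := (volume (ball (0 : E n) 1)).toReal with hω
  have hω0 : 0 < ω := by
    rw [hω]
    exact ENNReal.toReal_pos (measure_ball_pos _ _ one_pos).ne' measure_ball_lt_top.ne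
  refine ⟨C / ω, by positivity, fun ρ hρ W V hW hVm hWV i hi hin H hH => ?_⟩
  have hn0 : (2 : ℝ) ≤ n := by exact_mod_cast hn
  have hρ0 : 0 < ρ := by linarith
  set r : ℝ := 1 / ρ with hr
  have hr0 : 0 < r := by positivity
  have hnr : (n : ℝ) / ρ = n * r := by rw [hr]; ring
  have hfin := sg_finite n
  obtain ⟨j, rfl⟩ : ∃ j, i = j + 1 := ⟨i - 1, by omega⟩
  have hsf : SFinite (cv ((sg n).withDensity W) (bm n r) j) := cv_sf j
  show ∫⁻ x, H x ∂((cv ((sg n).withDensity W) (bm n r) j).conv (bm n r)) ≤ _
  rw [conv_avg _ H hH]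
  have hms : MeasurableSet {u : E n | |‖u‖ - 1| ≤ n / ρ} :=
    measurableSet_le (by fun_prop) measurable_const
  have h1 : ∀ u : E n, H u * cv ((sg n).withDensity W) (bm n r) j (closedBall u r) ≤
      ({u : E n | |‖u‖ - 1| ≤ n / ρ}.indicator fun u => H u * V u) u *
        ENNReal.ofReal (C * r ^ (n - 1)) := by
    intro u
    have hc := claim (hball r hr0) u (V u) (fun x hx hxu => hWV x u hx (by rw [hnr]; exact hxu)) j u
    have hjn : ((j : ℝ) + 1) ≤ n := by exact_mod_cast hin
    by_cases hu : |‖u‖ - 1| ≤ n / ρ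
    · rw [indicator_of_mem (by exact hu)]
      have h2 := hc.1 hin (by
        rw [sub_self, norm_zero]
        apply mul_nonneg _ hr0.le
        linarith)
      calc H u * cv ((sg n).withDensity W) (bm n r) j (closedBall u r) ≤
          H u * (V u * ENNReal.ofReal (C * r ^ (n - 1))) := by gcongr
        _ = _ := by rw [mul_assoc]
    · have h2 := hc.2 (by
        rw [not_le, hnr] at hu
        refine lt_of_le_of_lt ?_ hu
        gcongr)
      rw [h2, mul_zero]
      exact zero_le
  have hvol : volume (closedBall (0 : E n) r) = ENNReal.ofReal (r ^ n * ω) := by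
    rw [Measure.addHaar_closedBall _ _ hr0.le, finrank_euclideanSpace_fin,
      ENNReal.ofReal_mul (by positivity), hω, ENNReal.ofReal_toReal measure_ball_lt_top.ne]
  calc (volume (closedBall (0 : E n) r))⁻¹ *
        ∫⁻ u, H u * cv ((sg n).withDensity W) (bm n r) j (closedBall u r)
      ≤ (volume (closedBall (0 : E n) r))⁻¹ * ∫⁻ u,
        ({u : E n | |‖u‖ - 1| ≤ n / ρ}.indicator fun u => H u * V u) u *
          ENNReal.ofReal (C * r ^ (n - 1)) := by
        exact mul_le_mul' le_rfl (lintegral_mono h1)
    _ = (ENNReal.ofReal (r ^ n * ω))⁻¹ * ENNReal.ofReal (C * r ^ (n - 1)) *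
        ∫⁻ u in {u : E n | |‖u‖ - 1| ≤ n / ρ}, H u * V u := by
        have hm2 : Measurable ({u : E n | |‖u‖ - 1| ≤ n / ρ}.indicator fun u => H u * V u) :=
          (hH.mul hVm).indicator hms
        rw [hvol, lintegral_mul_const _ hm2, lintegral_indicator hms]
        ring
    _ = ENNReal.ofReal (C / ω * ρ) * ∫⁻ u in {u : E n | |‖u‖ - 1| ≤ n / ρ}, H u * V u := by
        congr 1
        rw [← ENNReal.ofReal_inv_of_pos (by positivity), ← ENNReal.ofReal_mul (by positivity)]
        congr 1
        have e : r ^ n = r ^ (n - 1) * r := by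
          rw [← pow_succ, Nat.sub_add_cancel (by omega)]
        rw [e, hr]
        field_simp

end Pool.Agent.N603.CY.Dom
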